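import Pool.Agent.Q215.SDs.Res

set_option autoImplicit false

/-!
# Graphs of bounded shrub-depth, and of bounded flip-depth over small graphs

`T(G)` is the set of nonempty cliques of `G` ordered by inclusion. Let the vertices of a graph `H`
be partitioned into `r` parts, and let `P` be a set of unordered pairs of parts (a pair may consist
of one part twice). The flipped graph is obtained from `H` by complementing the adjacency of the
two vertices of each pair of different vertices which lie in the two parts of a member of `P`.

The *flip-depth* of a graph (with `r` parts, over the base size `s`) is defined as follows: it is at
most `0` if the graph has at most `s` vertices, and at most `d + 1` if for some flip of the graph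
with `r` parts all components of the flipped graph have flip-depth at most `d`. So first the whole
graph is flipped, then each component of the result is flipped with a partition of its own, and so
on `d` times, until all components have at most `s` vertices. For `s = 1` the classes of bounded
flip-depth are the classes of bounded shrub-depth (Ganian, Hliněný, Nešetřil, Obdržálek, Ossona de
Mendez, Ramadurai), which are the classes of bounded SC-depth. The deletion of a vertex can be
replaced by a flip with three parts, so graphs of bounded treedepth, and graphs for which some
number of alternating vertex deletions and flips of the components leaves components with at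
most `s` vertices, have bounded flip-depth over `s`.

The theorem: for all `r` and `d` there is a constant `C` such that `T(G)` and `T` of the complement
of `G` are reconstructible if `G` has flip-depth at most `d` over `s` and at least
`C (s + 1)^3 log (s + 2)^2` vertices. For graphs with a tree-model of depth `d` with `m` labels this
gives: all but finitely many of them are reconstructible.

The proof is by induction on `d` from the theorem on many deep components (the companion file
`ManyDeepComponents`): if there are only few bad components, flips of these components are put
together to one flip of `G` with a bounded number of parts, all components of which have flip-depth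
at most `d`. The definitions are in `Pool/Agent/Q215/SDs/Res.lean`.
-/

namespace Pool.Agent.Results.MP_552896_co.BoundedFlipDepth

open Pool.Agent.Q215.SDs.Res

/-- For all `r ≥ 1` and `d` there is a constant `C` such that `T(G)` and `T(Gᶜ)` are
reconstructible if `G` has flip-depth at most `d` over `s` (by flips with `r` parts) and
`C (s + 1)^3 log (s + 2)^2 ≤ |V(G)|`. For all `m` and `d` there is a number `N` such that `T(G)` and
`T(Gᶜ)` are reconstructible if `G` has a tree-model of depth `d` with `m` labels and at least `N`
vertices. -/
theorem result :
    (∀ r : ℕ, 1 ≤ r → ∀ d : ℕ, ∃ C : ℝ, ∀ (s : ℕ) (V : Type) [Fintype V] (G : SimpleGraph V),
      FlipDepthLE r s d V G →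
      C * (((s : ℝ) + 1) ^ 3 * Real.log ((s : ℝ) + 2) ^ 2) ≤ (Fintype.card V : ℝ) →
      Reconstructible G ∧ Reconstructible Gᶜ) ∧
    (∀ m d : ℕ, ∃ N : ℕ, ∀ (V : Type) [Fintype V] (G : SimpleGraph V), HasTreeModel m d G →
      N ≤ Fintype.card V → Reconstructible G ∧ Reconstructible Gᶜ) :=
  ⟨part2, part3⟩

end Pool.Agent.Results.MP_552896_co.BoundedFlipDepth
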