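import Pool.Agent.Q215.SDs.Res

set_option autoImplicit false

/-!
# Graphs with a flip which has many deep components

`T(G)` is the set of nonempty cliques of `G` ordered by inclusion. Let the vertices of a graph be
partitioned, and let `P` be a set of unordered pairs of parts (a pair may consist of one part
twice). The flipped graph is obtained by complementing the adjacency of the two vertices of each
pair of different vertices which lie in the two parts of a member of `P`. The *flip-depth* of a
graph (with `r` parts, over the base size `s`) is at most `0` if the graph has at most `s` vertices,
and at most `d + 1` if for some flip of the graph with `r` parts all components of the flipped graph
have flip-depth at most `d`.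

The theorem: for all `r`, `d` and `R` there is a number `t` such that `T(G)` and `T` of the
complement of `G` are reconstructible if, for some flip of `G` with `R` parts, all components of the
flipped graph have flip-depth at most `d + 1` over `s`, and at least `t` of them do not have
flip-depth at most `d` over `s`. The number `t` does not depend on `s`, and nothing is assumed about
the number of vertices.

Proof. A flip with `R` parts of a graph, which has many bad components, has bad components again
(`Count`), and two flips of the same graph, both with components of flip-depth at most `d + 1`, have
the same bad components, up to a bounded number (`Rigid`). So in all cards of `G` (or of a graph `H`
hypomorphic to `G`) we see almost the same bad components (`Star`). From this it follows, if there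
are many bad components, that a set `L` of vertices (the union of almost all of the bad
components), the partition of the vertices in the coarsest way (two vertices are equivalent if they
have the same adjacency to almost all typical components) and the matrix of the flip are recognised
in all cards (`R1` to `R4`), so that the method for flips with bounded components of the starting
file `FlipComponents` can be applied to the components of this flip inside `L`, while the vertices
outside `L` are only counted by the permutations of the classes which extend to them (`Flip2`). The
definitions are in `Pool/Agent/Q215/SDs/Res.lean`.
-/

namespace Pool.Agent.Results.MP_552896_co.ManyDeepComponents

open Pool.Agent.Q215.SDs.Res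

/-- For all `r ≥ 1`, `R` and `d` there is a number `t` such that `T(G)` and `T(Gᶜ)` are
reconstructible if some flip of `G` with `R` parts has only components of flip-depth at most
`d + 1` and at least `t` components which do not have flip-depth at most `d` (over any base size
`s`, by flips with `r` parts). -/
theorem result :
    ∀ r : ℕ, 1 ≤ r → ∀ R d : ℕ, ∃ t : ℕ, ∀ (s : ℕ) (V : Type) [Fintype V] (G : SimpleGraph V)
      (f : V → Fin R) (P : Set (Sym2 (Fin R))),
      (∀ c : (flipped G f P).ConnectedComponent,
        FlipDepthLE r s (d + 1) c.supp ((flipped G f P).induce c.supp)) →
      t ≤ {c : (flipped G f P).ConnectedComponent |
        ¬ FlipDepthLE r s d c.supp ((flipped G f P).induce c.supp)}.ncard →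
      Reconstructible G ∧ Reconstructible Gᶜ :=
  part1

end Pool.Agent.Results.MP_552896_co.ManyDeepComponents
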