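import Pool.Agent.Q215.TwD

set_option autoImplicit false

/-!
# Graphs with repeated neighbourhoods, and graphs with few kinds of vertices

`T(G)` is the set of nonempty cliques of `G` ordered by inclusion. Let `G` be a graph with at least
10 vertices. The *multiplicity* of a vertex `v` is the number of the vertices with the same
neighbourhood as `v` (`v` included); two vertices with the same neighbourhood are called twins.
`T(G)` and `T` of the complement of `G` are reconstructible in each of the following cases.

(A) *A gap.* Some vertex `v` has multiplicity `t ≥ 2` and degree `d`, and no vertex of multiplicity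
`t - 1` has degree `d` or `d + 1`.

(B) *Degrees.* For some `e` there is a vertex of degree `e` and there is no vertex of degree
`e + 1`, and every vertex of degree `e` has a twin. For example, every vertex of maximum degree has
a twin; all graphs in which every vertex has a twin are of this kind.

(C) *The quotient.* `Q` is the graph whose vertices are the distinct neighbourhoods of the vertices
of `G`, the neighbourhoods of `u` and `v` being adjacent if `u` and `v` are; `k` of these
neighbourhoods belong to at least two vertices, and `2 |Aut(Q)| < (3/2)^k`. For example, the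
neighbourhoods form a graph without a nontrivial automorphism and at least two of them are repeated.

(D) *Few repeated neighbourhoods.* `G` has `n` vertices and `c` distinct neighbourhoods, `k` of
which belong to at least two vertices, and `k (k + 1) < 2 (n - c)`.

(E) *Few kinds of vertices.* The vertices of `G` fall into at most `k` parts, any two vertices of
the same part have the same neighbours among the other vertices, and `k (k + 3) < 2 n`. So every
graph with neighbourhood diversity `k` and more than `k (k + 3) / 2` vertices is reconstructible.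

The proof: the number of the ordered pairs of nonadjacent vertices which are distinguished by
exactly `j` other vertices satisfies a recurrence of Kelly's type, so that the difference of these
numbers for two hypomorphic graphs is `(-1)^j C(n-2, j)` times the difference for `j = 0`; since
there are not enough pairs, all differences are `0`. It follows that every vertex has the same
multiplicity in both graphs, as deleting a vertex with a twin creates no new twins. If `v'` is a
twin of `v`, the image of `v'` under the isomorphism of the cards at `v` is a twin of `v` in the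
other graph, and the graphs are isomorphic, or it is as in (A). In (C) the multisets of the
repeated neighbourhoods are compared under the group of the automorphisms of `Q`.
-/

namespace Pool.Agent.Results.MP_552896_co.RepeatedNeighbourhoods

/-- The truncated clique lattices of `G` and `H` have the same deck of maximal filter deleted
subsets: some bijection `f` of the vertex sets is such that, for every vertex `v`, the nonempty
cliques of `G` avoiding `v` and the nonempty cliques of `H` avoiding `f v`, both ordered by
inclusion, are isomorphic ordered sets. -/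
def SameDeck {V W : Type} (G : SimpleGraph V) (H : SimpleGraph W) : Prop :=
  ∃ f : V ≃ W, ∀ v : V,
    Nonempty ({s : Finset V // s.Nonempty ∧ G.IsClique (s : Set V) ∧ v ∉ s} ≃o
      {t : Finset W // t.Nonempty ∧ H.IsClique (t : Set W) ∧ f v ∉ t})

/-- `T(G)` is reconstructible from its deck: every truncated clique lattice `T(H)` of a finite
graph `H` with the same deck is isomorphic to `T(G)`. -/
def Reconstructible {V : Type} (G : SimpleGraph V) : Prop :=
  ∀ (W : Type) [Fintype W] (H : SimpleGraph W), SameDeck G H →
    Nonempty ({s : Finset V // s.Nonempty ∧ G.IsClique (s : Set V)} ≃o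
      {t : Finset W // t.Nonempty ∧ H.IsClique (t : Set W)})

/-- The degree of `v`. -/
noncomputable def deg {V : Type} (G : SimpleGraph V) (v : V) : ℕ := (G.neighborSet v).ncard

/-- The multiplicity of `v`: the number of the vertices with the same neighbourhood. -/
noncomputable def mult {V : Type} (G : SimpleGraph V) (v : V) : ℕ :=
  {u | G.neighborSet u = G.neighborSet v}.ncard

/-- The neighbourhoods which belong to at least two vertices. -/
def repeated {V : Type} (G : SimpleGraph V) : Set (Set V) :=
  {S | ∃ u v, u ≠ v ∧ G.neighborSet u = S ∧ G.neighborSet v = S}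

/-- The graph of the distinct neighbourhoods of `G`; the neighbourhoods of `u` and `v` are adjacent
if `u` and `v` are adjacent. -/
def quotientGraph {V : Type} (G : SimpleGraph V) : SimpleGraph (Set.range G.neighborSet) where
  Adj S T := ∃ u v, G.neighborSet u = S ∧ G.neighborSet v = T ∧ G.Adj u v
  symm := ⟨by
    rintro S T ⟨u, v, h1, h2, h3⟩
    exact ⟨v, u, h2, h1, h3.symm⟩⟩
  loopless := ⟨by
    rintro S ⟨u, v, h1, h2, h3⟩
    have h4 : v ∈ G.neighborSet u := h3
    rw [h1, ← h2] at h4
    exact G.irrefl h4⟩

open Classical in
theorem ncard_filter {V : Type} [Fintype V] (p : V → Prop) :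
    {u | p u}.ncard = (Finset.univ.filter p).card := by
  rw [← Set.ncard_coe_finset]
  congr 1
  ext u
  simp

theorem deg_eq {V : Type} [Fintype V] (G : SimpleGraph V) (v : V) :
    deg G v = Pool.Agent.TH87.RVC.dS G Finset.univ v := by
  classical
  exact ncard_filter (fun y => G.Adj v y)

theorem mult_eq {V : Type} [Fintype V] (G : SimpleGraph V) (v : V) :
    mult G v = Pool.Agent.Q215.Tw.sz G v := by
  classical
  unfold mult Pool.Agent.Q215.Tw.sz
  rw [← ncard_filter (fun u => Pool.Agent.Q215.Tw.Tw G v u)]
  congr 1
  ext u
  show G.neighborSet u = G.neighborSet v ↔ Pool.Agent.Q215.Tw.Tw G v u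
  rw [← Pool.Agent.Q215.Tw.nb_eq]
  exact ⟨fun h => h.symm, fun h => h.symm⟩

theorem repeated_eq {V : Type} [Fintype V] (G : SimpleGraph V) :
    (repeated G).ncard = {x | Pool.Agent.Q215.Tw.wt (Pool.Agent.Q215.Tw.rho G) x ≠ 0}.ncard := by
  classical
  have p := Pool.Agent.Q215.Tw.pres G
  rw [← Set.ncard_image_of_injective _ Subtype.val_injective]
  congr 1
  ext S
  constructor
  · rintro ⟨u, v, huv, h1, h2⟩
    refine ⟨Pool.Agent.Q215.Tw.rho G u, ?_, h1⟩
    show Pool.Agent.Q215.Tw.wt (Pool.Agent.Q215.Tw.rho G) (Pool.Agent.Q215.Tw.rho G u) ≠ 0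
    rw [Pool.Agent.Q215.Tw.wt_eq p]
    have h3 : 1 < Pool.Agent.Q215.Tw.sz G u := by
      unfold Pool.Agent.Q215.Tw.sz
      rw [Finset.one_lt_card]
      refine ⟨u, ?_, v, ?_, huv⟩
      · rw [Finset.mem_filter]
        exact ⟨Finset.mem_univ _, Pool.Agent.Q215.Tw.Tw.rfl' G u⟩
      · rw [Finset.mem_filter]
        exact ⟨Finset.mem_univ _, (Pool.Agent.Q215.Tw.nb_eq G u v).mp (h1.trans h2.symm)⟩
    omega
  · rintro ⟨x, hx, rfl⟩
    obtain ⟨u, rfl⟩ := p.surj x
    have h1 : Pool.Agent.Q215.Tw.wt (Pool.Agent.Q215.Tw.rho G) (Pool.Agent.Q215.Tw.rho G u) ≠ 0 := hx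
    rw [Pool.Agent.Q215.Tw.wt_eq p] at h1
    obtain ⟨v, hv1, hv2⟩ := Pool.Agent.Q215.Tw.exists_twin
      (show 2 ≤ Pool.Agent.Q215.Tw.sz G u by omega)
    exact ⟨u, v, hv1.symm, rfl, ((Pool.Agent.Q215.Tw.nb_eq G u v).mpr hv2).symm⟩

theorem aut_eq {V : Type} [Fintype V] (G : SimpleGraph V) :
    Nat.card (quotientGraph G ≃g quotientGraph G) =
      Nat.card (Pool.Agent.Q215.Tw.AutR (Pool.Agent.Q215.Tw.relR G)) := by
  apply Nat.card_congr
  exact
    { toFun := fun e => ⟨e.toEquiv, fun a b => e.map_rel_iff⟩
      invFun := fun γ => ⟨γ.1, fun {a b} => γ.2 a b⟩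
      left_inv := fun e => rfl
      right_inv := fun γ => rfl }

/-- `T(G)` and `T(Gᶜ)` are reconstructible for a graph `G` with `n ≥ 10` vertices, if
(A) some vertex `v` has multiplicity at least 2 and no vertex whose multiplicity is smaller by one
has degree `deg v` or `deg v + 1`, or
(B) some vertex has degree `e`, all vertices of degree `e` have multiplicity at least 2, and no
vertex has degree `e + 1`, or
(C) `2 |Aut(Q)| < (3/2)^k`, where `Q` is the graph of the distinct neighbourhoods and `k` of them
are repeated, or
(D) `k (k + 1) < 2 (n - c)`, where `c` is the number of the distinct neighbourhoods and `k` of them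
are repeated, or
(E) the vertices fall into `k` parts, two vertices of the same part have the same neighbours among
the other vertices, and `k (k + 3) < 2 n`. -/
theorem result {V : Type} [Fintype V] (G : SimpleGraph V) (hn : 10 ≤ Fintype.card V) :
    ((∃ v, 2 ≤ mult G v ∧
        ∀ u, mult G u + 1 = mult G v → deg G u ≠ deg G v ∧ deg G u ≠ deg G v + 1) →
      Reconstructible G ∧ Reconstructible Gᶜ) ∧
    (∀ e : ℕ, (∃ v, deg G v = e) → (∀ v, deg G v = e → 2 ≤ mult G v) →
      (∀ v, deg G v ≠ e + 1) → Reconstructible G ∧ Reconstructible Gᶜ) ∧
    (2 * (Nat.card (quotientGraph G ≃g quotientGraph G) : ℝ) < (3 / 2 : ℝ) ^ (repeated G).ncard →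
      Reconstructible G ∧ Reconstructible Gᶜ) ∧
    ((repeated G).ncard * ((repeated G).ncard + 1) + 2 * (Set.range G.neighborSet).ncard <
        2 * Fintype.card V →
      Reconstructible G ∧ Reconstructible Gᶜ) ∧
    (∀ (k : ℕ) (f : V → Fin k),
      (∀ u v, f u = f v → ∀ z, z ≠ u → z ≠ v → (G.Adj u z ↔ G.Adj v z)) →
      k * (k + 3) < 2 * Fintype.card V → Reconstructible G ∧ Reconstructible Gᶜ) := by
  classical
  refine ⟨?_, ?_, ?_, ?_, ?_⟩
  · rintro ⟨v, h1, h2⟩
    apply Pool.Agent.Q215.Tw.main_gap G hn
    simp only [mult_eq, deg_eq] at h1 h2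
    exact ⟨v, h1, h2⟩
  · intro e h1 h2 h3
    simp only [mult_eq, deg_eq] at h1 h2 h3
    exact Pool.Agent.Q215.Tw.main_top G hn e h1 h2 h3
  · intro h
    rw [aut_eq, repeated_eq] at h
    exact Pool.Agent.Q215.Tw.main_quot G hn (Pool.Agent.Q215.Tw.pres G) h
  · intro h
    rw [repeated_eq] at h
    exact Pool.Agent.Q215.Tw.main_few G hn (Pool.Agent.Q215.Tw.pres G) h
  · intro k f hf hk
    exact Pool.Agent.Q215.Tw.main_div G hn k f hf hk

end Pool.Agent.Results.MP_552896_co.RepeatedNeighbourhoods
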