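import Pool.Agent.Q109.AC.Tra

set_option autoImplicit false

/-!
# Any three cards determine almost all members of many classes of graphs

`T(G)` is the set of nonempty cliques of `G` ordered by inclusion. For almost all members `G` of the
following classes of graphs any three cards of `T(G)` determine `T(G)`, and any three cards of `T`
of the complement of `G` determine it; in particular both are reconstructible.

* the graphs between two given graphs which differ in many edges at every vertex;
* the graphs which do not contain a given graph with a critical edge, for example the graphs without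
  `r + 1` pairwise adjacent vertices, and the complements of these graphs;
* the graphs whose vertices can be partitioned into `r` parts which induce members of given
  hereditary classes with few one vertex extensions, graphs with defective partitions, with
  partitions into unions of few cliques, with partitions into cliques and independent sets, and
  generalised split graphs.

The proof: if `F ≤ B` are graphs with `n` vertices and every vertex lies on at least `c n` edges of
`B` which are not edges of `F`, then almost all graphs between `F` and `B` have no nontrivial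
near-automorphisms (isomorphisms between two induced subgraphs with `n - 2` vertices), since such a
map which moves `k` vertices exists with probability at most `2 ^ (-c' n k)`; a graph without
nontrivial near-automorphisms is determined by any three cards. The classes are reduced to this case
by the second moment method over the partitions and the formal proof of the theorem of Prömel and
Steger of helper6.
-/

namespace Pool.Agent.Results.MP_552896_co.ThreeCardsInClasses

/-- The card of `T(G)` at `v` and the card of `T(H)` at `w` are isomorphic: the nonempty cliques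
of `G` avoiding `v` and the nonempty cliques of `H` avoiding `w`, both ordered by inclusion, are
isomorphic ordered sets. -/
def SameCard {V W : Type} (G : SimpleGraph V) (v : V) (H : SimpleGraph W) (w : W) : Prop :=
  Nonempty ({s : Finset V // s.Nonempty ∧ G.IsClique (s : Set V) ∧ v ∉ s} ≃o
    {t : Finset W // t.Nonempty ∧ H.IsClique (t : Set W) ∧ w ∉ t})

/-- `T(G)` and `T(H)` are isomorphic. -/
def SameT {V W : Type} (G : SimpleGraph V) (H : SimpleGraph W) : Prop :=
  Nonempty ({s : Finset V // s.Nonempty ∧ G.IsClique (s : Set V)} ≃o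
    {t : Finset W // t.Nonempty ∧ H.IsClique (t : Set W)})

/-- `T(G)` is reconstructible from its deck: every truncated clique lattice `T(H)` of a finite
graph `H` with the same deck (some bijection `f` of the vertex sets is such that the cards at `v`
and `f v` are isomorphic for every `v`) is isomorphic to `T(G)`. -/
def Reconstructible {V : Type} (G : SimpleGraph V) : Prop :=
  ∀ (W : Type) [Fintype W] (H : SimpleGraph W),
    (∃ f : V ≃ W, ∀ v : V, SameCard G v H (f v)) → SameT G H

/-- Any three cards of `T(G)` determine `T(G)`: every `T(H)` of a finite graph `H` which has three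
cards (at different vertices `a'`, `b'`, `c'`) isomorphic to the cards of `T(G)` at three different
vertices `a`, `b`, `c` is isomorphic to `T(G)`. -/
def AnyThreeCards {V : Type} (G : SimpleGraph V) : Prop :=
  ∀ a b c : V, a ≠ b → a ≠ c → b ≠ c →
    ∀ (W : Type) [Fintype W] (H : SimpleGraph W) (a' b' c' : W), a' ≠ b' → a' ≠ c' → b' ≠ c' →
      SameCard G a H a' → SameCard G b H b' → SameCard G c H c' → SameT G H

/-- The conclusion for the graph `G`: `T(G)` and `T(Gᶜ)` are reconstructible, and each of them is
determined by any three of its cards. -/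
def Determined {V : Type} (G : SimpleGraph V) : Prop :=
  (Reconstructible G ∧ AnyThreeCards G) ∧ (Reconstructible Gᶜ ∧ AnyThreeCards Gᶜ)

/-- The graph `F` has no proper colouring with `r` colours, but some edge of `F` can be deleted such
that the rest has one. Hence `F` has chromatic number `r + 1`. -/
def HasCriticalEdge {A : Type} (F : SimpleGraph A) (r : ℕ) : Prop :=
  ¬ F.Colorable r ∧ ∃ e ∈ F.edgeSet, (F.deleteEdges {e}).Colorable r

/-- A class of graphs, given by its members `Φ m` on the vertex sets `Fin m`, is closed under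
induced subgraphs and isomorphisms. -/
def Hereditary (Φ : (m : ℕ) → Set (SimpleGraph (Fin m))) : Prop :=
  ∀ (m n : ℕ) (φ : Fin m ↪ Fin n) (G : SimpleGraph (Fin n)), G ∈ Φ n → G.comap φ ∈ Φ m

/-- Every graph on `m` vertices has at most `e m` extensions by one vertex in the class. -/
def FewExt (e : ℕ → ℕ) (Φ : (m : ℕ) → Set (SimpleGraph (Fin m))) : Prop :=
  ∀ (m : ℕ) (H : SimpleGraph (Fin m)),
    {G : SimpleGraph (Fin (m + 1)) | G ∈ Φ (m + 1) ∧ G.comap Fin.castSucc = H}.ncard ≤ e m

/-- The function `e` grows subexponentially. -/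
def Subexp (e : ℕ → ℕ) : Prop :=
  ∀ δ : ℝ, 0 < δ → ∀ᶠ m : ℕ in Filter.atTop, (e m : ℝ) ≤ (1 + δ) ^ m

/-- The vertices of `G` can be partitioned into `r` (possibly empty) parts `f v = i`, `i < r`, such
that the part `i` induces a member of the class `Φ i`. -/
def InParts {n r : ℕ} (Φ : Fin r → (m : ℕ) → Set (SimpleGraph (Fin m)))
    (G : SimpleGraph (Fin n)) : Prop :=
  ∃ f : Fin n → Fin r, ∀ (i : Fin r) (m : ℕ) (φ : Fin m ↪ Fin n), (∀ a, f (φ a) = i) →
    G.comap φ ∈ Φ i m

/-- The vertices of `G` can be partitioned into `r` parts such that every vertex of a part `i ∈ S`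
has at most `D` nonneighbours in its part, and every vertex of a part `i ∉ S` has at most `D`
neighbours in its part. -/
def Defective (D : ℕ) {n r : ℕ} (S : Set (Fin r)) (G : SimpleGraph (Fin n)) : Prop :=
  ∃ f : Fin n → Fin r, ∀ v, {u | u ≠ v ∧ f u = f v ∧ ¬ (G.Adj v u ↔ f v ∈ S)}.ncard ≤ D

/-- The vertices of `G` can be partitioned into `r` parts such that the part `i` induces a disjoint
union of at most `k i` cliques (the cliques `g v = j`, `j < k i`). -/
def CliqueUnions {n r : ℕ} (k : Fin r → ℕ) (G : SimpleGraph (Fin n)) : Prop :=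
  ∃ (f : Fin n → Fin r) (g : Fin n → ℕ), (∀ v, g v < k (f v)) ∧
    ∀ u v, u ≠ v → f u = f v → (G.Adj u v ↔ g u = g v)

/-- The vertices of `G` can be partitioned into `r` parts, the parts `i ∈ S` cliques and the parts
`i ∉ S` independent. -/
def CliquesAndIndependent {n r : ℕ} (S : Set (Fin r)) (G : SimpleGraph (Fin n)) : Prop :=
  ∃ f : Fin n → Fin r, ∀ u v, u ≠ v → f u = f v → (G.Adj u v ↔ f u ∈ S)

/-- The vertices of `G` can be partitioned into a clique `A` and a set which induces a disjoint
union of cliques. A generalised split graph is a graph `G` such that `G` or its complement is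
unipolar. -/
def Unipolar {n : ℕ} (G : SimpleGraph (Fin n)) : Prop :=
  ∃ A : Set (Fin n), (∀ a ∈ A, ∀ b ∈ A, a ≠ b → G.Adj a b) ∧
    ∀ a b c, a ∉ A → b ∉ A → c ∉ A → a ≠ c → G.Adj a b → G.Adj b c → G.Adj a c

/-- For every `ε > 0`, all but an `ε`-fraction of the graphs on `n` vertices of each of the following
classes are `Determined`, for all large `n`:

(1) the graphs between `F` and `B`, for any two graphs `F ≤ B` such that every vertex lies on at
least `c n` edges of `B` which are not edges of `F` (`c > 0` fixed);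

(2) the graphs which do not contain `F`, and the graphs whose complements do not contain `F`, where
`F` is a fixed finite graph of chromatic number `r + 1 ≥ 3` with an edge whose deletion decreases the
chromatic number;

(3) in particular the graphs without `r + 1` pairwise adjacent vertices, and the graphs without
`r + 1` pairwise nonadjacent vertices, `r ≥ 2`;

(4) the graphs whose vertices can be partitioned into `r` parts which induce members of hereditary
classes `Φ 0`, ..., `Φ (r - 1)` in which every graph on `m` vertices has at most `e m` extensions by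
one vertex, where `e` grows subexponentially (the bound on `n` depends on `e`, `r`, `ε` only);

(5) the graphs whose vertices can be partitioned into `r` parts such that every vertex has at most
`D` neighbours (in the parts of `S`: at most `D` nonneighbours) in its part;

(6) the graphs whose vertices can be partitioned into `r` parts, the part `i` a disjoint union of at
most `k i` cliques;

(7) the graphs whose vertices can be partitioned into `r` parts, those of `S` cliques, the others
independent, uniformly for all `r ≤ n ^ (1 / 6)` and `S`;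

(8) the generalised split graphs. -/
theorem result :
    (∀ c ε : ℝ, 0 < c → 0 < ε → ∃ N : ℕ, ∀ n : ℕ, N ≤ n → ∀ F B : SimpleGraph (Fin n), F ≤ B →
      (∀ v, ((F.neighborSet v).ncard : ℝ) + c * n ≤ (B.neighborSet v).ncard) →
      ({G : SimpleGraph (Fin n) | F ≤ G ∧ G ≤ B ∧ ¬ Determined G}.ncard : ℝ) ≤
        ε * {G : SimpleGraph (Fin n) | F ≤ G ∧ G ≤ B}.ncard) ∧
    (∀ (A : Type) [Fintype A] (F : SimpleGraph A) (r : ℕ), 2 ≤ r → HasCriticalEdge F r →
      ∀ ε : ℝ, 0 < ε → ∃ N : ℕ, ∀ n : ℕ, N ≤ n →
        ({G : SimpleGraph (Fin n) | F.Free G ∧ ¬ Determined G}.ncard : ℝ) ≤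
          ε * {G : SimpleGraph (Fin n) | F.Free G}.ncard ∧
        ({G : SimpleGraph (Fin n) | F.Free Gᶜ ∧ ¬ Determined G}.ncard : ℝ) ≤
          ε * {G : SimpleGraph (Fin n) | F.Free Gᶜ}.ncard) ∧
    (∀ r : ℕ, 2 ≤ r → ∀ ε : ℝ, 0 < ε → ∃ N : ℕ, ∀ n : ℕ, N ≤ n →
      ({G : SimpleGraph (Fin n) | G.CliqueFree (r + 1) ∧ ¬ Determined G}.ncard : ℝ) ≤
        ε * {G : SimpleGraph (Fin n) | G.CliqueFree (r + 1)}.ncard ∧
      ({G : SimpleGraph (Fin n) | Gᶜ.CliqueFree (r + 1) ∧ ¬ Determined G}.ncard : ℝ) ≤
        ε * {G : SimpleGraph (Fin n) | Gᶜ.CliqueFree (r + 1)}.ncard) ∧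
    (∀ (e : ℕ → ℕ), Subexp e → ∀ r : ℕ, 2 ≤ r → ∀ ε : ℝ, 0 < ε → ∃ N : ℕ, ∀ n : ℕ, N ≤ n →
      ∀ Φ : Fin r → (m : ℕ) → Set (SimpleGraph (Fin m)),
      (∀ i, Hereditary (Φ i)) → (∀ i m, (Φ i m).Nonempty) → (∀ i, FewExt e (Φ i)) →
      ({G : SimpleGraph (Fin n) | InParts Φ G ∧ ¬ Determined G}.ncard : ℝ) ≤
        ε * {G : SimpleGraph (Fin n) | InParts Φ G}.ncard) ∧
    (∀ D r : ℕ, 2 ≤ r → ∀ ε : ℝ, 0 < ε → ∃ N : ℕ, ∀ n : ℕ, N ≤ n → ∀ S : Set (Fin r),
      ({G : SimpleGraph (Fin n) | Defective D S G ∧ ¬ Determined G}.ncard : ℝ) ≤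
        ε * {G : SimpleGraph (Fin n) | Defective D S G}.ncard) ∧
    (∀ r : ℕ, 2 ≤ r → ∀ ε : ℝ, 0 < ε → ∃ N : ℕ, ∀ n : ℕ, N ≤ n → ∀ k : Fin r → ℕ,
      (∀ i, 1 ≤ k i) →
      ({G : SimpleGraph (Fin n) | CliqueUnions k G ∧ ¬ Determined G}.ncard : ℝ) ≤
        ε * {G : SimpleGraph (Fin n) | CliqueUnions k G}.ncard) ∧
    (∀ ε : ℝ, 0 < ε → ∃ N : ℕ, ∀ n : ℕ, N ≤ n → ∀ r : ℕ, 2 ≤ r → r ^ 6 ≤ n →
      ∀ S : Set (Fin r),
      ({G : SimpleGraph (Fin n) | CliquesAndIndependent S G ∧ ¬ Determined G}.ncard : ℝ) ≤
        ε * {G : SimpleGraph (Fin n) | CliquesAndIndependent S G}.ncard) ∧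
    (∀ ε : ℝ, 0 < ε → ∃ N : ℕ, ∀ n : ℕ, N ≤ n →
      ({G : SimpleGraph (Fin n) | (Unipolar G ∨ Unipolar Gᶜ) ∧ ¬ Determined G}.ncard : ℝ) ≤
        ε * {G : SimpleGraph (Fin n) | Unipolar G ∨ Unipolar Gᶜ}.ncard) := by
  have hP : Pool.Agent.Q109.AC.Typ (fun _ G => Determined G) :=
    fun c ε hc hε => Pool.Agent.Q109.AC.typical c ε hc hε
  have h1 : ∀ (A : Type) [Fintype A] (F : SimpleGraph A) (r : ℕ), 2 ≤ r → HasCriticalEdge F r →
      ∀ ε : ℝ, 0 < ε → ∃ N : ℕ, ∀ n : ℕ, N ≤ n →
        ({G : SimpleGraph (Fin n) | F.Free G ∧ ¬ Determined G}.ncard : ℝ) ≤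
          ε * {G : SimpleGraph (Fin n) | F.Free G}.ncard ∧
        ({G : SimpleGraph (Fin n) | F.Free Gᶜ ∧ ¬ Determined G}.ncard : ℝ) ≤
          ε * {G : SimpleGraph (Fin n) | F.Free Gᶜ}.ncard := by
    intro A _ F r hr hF ε hε
    obtain ⟨N, hN⟩ := Pool.Agent.Q109.AC.transfer (fun _ G => Determined G) hP F r hr hF.1 hF.2
      ε hε
    exact ⟨N, fun n hn => hN n hn⟩
  refine ⟨hP, h1, fun r hr ε hε => ?_, fun e he r hr ε hε => ?_, fun D r hr ε hε => ?_,
    fun r hr ε hε => ?_, fun ε hε => ?_, fun ε hε => ?_⟩
  · obtain ⟨N, hN⟩ := h1 (Fin (r + 1)) ⊤ r hr (Pool.Agent.Q6.PS.top_critical r (by omega)) ε hε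
    refine ⟨N, fun n hn => ?_⟩
    have h2 := hN n hn
    have h3 : ∀ G : SimpleGraph (Fin n), (⊤ : SimpleGraph (Fin (r + 1))).Free G ↔
        G.CliqueFree (r + 1) := by
      intro G
      have h4 := SimpleGraph.cliqueFree_iff_top_free (G := G) (β := Fin (r + 1))
      rw [Fintype.card_fin] at h4
      exact h4.symm
    simp only [h3] at h2
    exact h2
  · obtain ⟨N, hN⟩ := Pool.Agent.Q109.AC.almost_all (fun _ G => Determined G) hP e he r hr ε hε
    exact ⟨N, fun n hn Φ h1 h2 h3 => hN n hn Φ h1 h2 h3⟩
  · obtain ⟨N, hN⟩ := Pool.Agent.Q109.AC.defective (fun _ G => Determined G) hP D r hr ε hε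
    exact ⟨N, fun n hn S => hN n hn S⟩
  · obtain ⟨N, hN⟩ := Pool.Agent.Q109.AC.cliqueUnions (fun _ G => Determined G) hP r hr ε hε
    exact ⟨N, fun n hn k hk => hN n hn k hk⟩
  · obtain ⟨N, hN⟩ := Pool.Agent.Q109.AC.almost_all_r (fun _ G => Determined G) hP ε hε
    exact ⟨N, fun n hn r hr hrn S => hN n hn r hr hrn S⟩
  · obtain ⟨N, hN⟩ := Pool.Agent.Q109.AC.gen_split (fun _ G => Determined G) hP ε hε
    exact ⟨N, fun n hn => hN n hn⟩

end Pool.Agent.Results.MP_552896_co.ThreeCardsInClasses
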